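import Pool.Agent.V5helper47.ER.Blk

/-! Project ER, job P1: existence of joint eigenvectors. -/

set_option autoImplicit false
open Finset

namespace V5helper47.ER
open V5helper19.ER

/-- Joint eigenvectors of commuting involutions. -/
theorem joint {H : Type} [Group H] (W : Submodule ℝ (H → ℝ)) (hW : RI W) {κ : Type} [Fintype κ]
    [DecidableEq κ] (g : κ → H) (hc : ∀ i j, g i * g j = g j * g i) (h2 : ∀ i, g i * g i = 1)
    (J : Finset κ) (ε : κ → Bool) (w : H → ℝ) (hw : w ∈ W) (hw0 : w ≠ 0)
    (hJ : ∀ j ∈ J, ∀ x, w (x * g j) = sg (ε j) * w x) :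
    ∃ δ : κ → Bool, (∀ j ∈ J, δ j = ε j) ∧ ∃ w' ∈ W, w' ≠ 0 ∧ ∀ j x, w' (x * g j) = sg (δ j) * w' x := by
  have key : ∀ A : Finset κ, ∃ δ : κ → Bool, (∀ j ∈ J, δ j = ε j) ∧
      ∃ w' ∈ W, w' ≠ 0 ∧ ∀ j ∈ A ∪ J, ∀ x, w' (x * g j) = sg (δ j) * w' x := by
    intro A
    induction A using Finset.induction_on with
    | empty =>
      refine ⟨ε, fun _ _ => rfl, w, hw, hw0, fun j hj x => hJ j ?_ x⟩
      simpa using hj
    | insert a A ha ih =>
      obtain ⟨δ, hδ, w', hw', hw0', h⟩ := ih
      by_cases haJ : a ∈ A ∪ J
      · refine ⟨δ, hδ, w', hw', hw0', fun j hj x => h j ?_ x⟩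
        rw [insert_union, mem_insert] at hj
        rcases hj with rfl | hj
        · exact haJ
        · exact hj
      · by_cases hs : w' + (fun x => w' (x * g a)) = 0
        · refine ⟨Function.update δ a true, fun j hj => ?_, w', hw', hw0', fun j hj x => ?_⟩
          · rw [Function.update_of_ne, hδ j hj]
            rintro rfl
            exact haJ (mem_union_right _ hj)
          · rw [insert_union, mem_insert] at hj
            by_cases hja : j = a
            · subst hja
              rw [Function.update_self]
              have h3 := congrFun hs x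
              simp only [Pi.add_apply, Pi.zero_apply] at h3
              simp only [sg, if_true]
              linarith
            · rw [Function.update_of_ne hja]
              exact h j (hj.resolve_left hja) x
        · refine ⟨Function.update δ a false, fun j hj => ?_, _, W.add_mem hw' (hW (g a) w' hw'), hs,
            fun j hj x => ?_⟩
          · rw [Function.update_of_ne, hδ j hj]
            rintro rfl
            exact haJ (mem_union_right _ hj)
          · rw [insert_union, mem_insert] at hj
            simp only [Pi.add_apply]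
            by_cases hja : j = a
            · subst hja
              rw [Function.update_self, mul_assoc, h2, mul_one]
              simp only [sg, Bool.false_eq_true, if_false]
              ring
            · rw [Function.update_of_ne hja, mul_assoc, hc, ← mul_assoc,
                h j (hj.resolve_left hja) x, h j (hj.resolve_left hja) (x * g a)]
              ring
  obtain ⟨δ, hδ, w', hw', hw0', h⟩ := key univ
  exact ⟨δ, hδ, w', hw', hw0', fun j x => h j (by simp) x⟩

theorem joint_col {n m : ℕ} (e : Fin m × Fin 4 ↪ Fin n) (W : Submodule ℝ (G n → ℝ)) (hW : RI W)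
    (J : Finset (Fin m)) (w : G n → ℝ) (hw : w ∈ W) (hw0 : w ≠ 0)
    (hJ : ∀ i ∈ J, ∀ x, w (x * gu e i) = - w x) :
    ∃ γ, ∃ w' ∈ W, w' ≠ 0 ∧ IsCol e γ w' ∧ J.card ≤ sup γ := by
  obtain ⟨δ, hδ, w', hw', hw0', h⟩ := joint W hW (gg e) (gg_comm e) (gg_sq e)
    (J.image fun i => (i, false)) (fun _ => true) w hw hw0 (by
      intro j hj x
      obtain ⟨i, hi, rfl⟩ := mem_image.1 hj
      have : gg e (i, false) = gu e i := rfl
      rw [this, hJ i hi x]
      simp [sg])
  refine ⟨fun i => (δ (i, false), δ (i, true)), w', hw', hw0',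
    (isCol_iff e _ w').2 fun i x => ⟨h (i, false) x, h (i, true) x⟩, ?_⟩
  unfold V5helper19.ER.sup
  refine card_le_card fun i hi => ?_
  rw [mem_filter]
  refine ⟨mem_univ _, fun hne => ?_⟩
  have h1 := hδ (i, false) (mem_image_of_mem _ hi)
  rw [Prod.mk.injEq] at hne
  rw [hne.1] at h1
  exact absurd h1 (by decide)

theorem t_P1 : S_P1 := by
  intro n m e W hW
  refine ⟨fun hne => ?_, fun w i₀ i₁ x y hw hi hx hy hD => ?_, fun w i₀ x hw hx ht => ?_⟩
  · obtain ⟨w, hw, hw0⟩ := (Submodule.ne_bot_iff W).1 hne
    obtain ⟨γ, w', h1, h2, h3, -⟩ := joint_col e W hW ∅ w hw hw0 (by simp)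
    exact ⟨γ, w', h1, h2, h3⟩
  · have hx' : x = gu e i₀ := Subtype.ext hx
    have hy' : y = gu e i₁ := Subtype.ext hy
    have hxx : x * x = 1 := by rw [hx']; exact gg_sq e (i₀, false)
    have hyy : y * y = 1 := by rw [hy']; exact gg_sq e (i₁, false)
    have hxy : x * y = y * x := by rw [hx', hy']; exact gg_comm e (i₀, false) (i₁, false)
    let w' : G n → ℝ := fun t => w t - w (t * x) - w (t * y) + w (t * x * y)
    have hw' : w' ∈ W := by
      have h3 := W.add_mem (W.sub_mem (W.sub_mem hw (hW x w hw)) (hW y w hw)) (hW (x * y) w hw)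
      convert h3 using 1
      ext t
      simp only [w', Pi.add_apply, Pi.sub_apply, mul_assoc]
    have hw0 : w' ≠ 0 := by
      intro h0
      exact hD fun t => congrFun h0 t
    obtain ⟨γ, v, h1, h2, h3, h4⟩ := joint_col e W hW {i₀, i₁} w' hw' hw0 (by
      intro i hi t
      rw [mem_insert, mem_singleton] at hi
      rcases hi with rfl | rfl
      · rw [← hx']
        simp only [w']
        have e1 : t * x * x = t := by rw [mul_assoc, hxx, mul_one]
        have e2 : t * x * x * y = t * y := by rw [e1]
        rw [e1]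
        ring
      · rw [← hy']
        simp only [w']
        have e1 : t * y * y = t := by rw [mul_assoc, hyy, mul_one]
        have e2 : t * y * x * y = t * x := by
          rw [mul_assoc t y x, ← hxy, ← mul_assoc, mul_assoc, hyy, mul_one]
        have e3 : t * y * x = t * x * y := by rw [mul_assoc, ← hxy, ← mul_assoc]
        rw [e1, e2, e3]
        ring)
    refine ⟨γ, v, h1, h2, h3, ?_⟩
    rw [card_pair hi] at h4
    exact h4
  · have hx' : x = gu e i₀ := Subtype.ext hx
    have hxx : x * x = 1 := by rw [hx']; exact gg_sq e (i₀, false)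
    let w' : G n → ℝ := fun t => w t - w (t * x)
    have hw' : w' ∈ W := W.sub_mem hw (hW x w hw)
    have hw0 : w' ≠ 0 := by
      obtain ⟨t, ht⟩ := ht
      intro h0
      have := congrFun h0 t
      simp only [w', Pi.zero_apply] at this
      exact ht (by linarith)
    obtain ⟨γ, v, h1, h2, h3, h4⟩ := joint_col e W hW {i₀} w' hw' hw0 (by
      intro i hi t
      rw [mem_singleton] at hi
      subst hi
      rw [← hx']
      simp only [w']
      have e1 : t * x * x = t := by rw [mul_assoc, hxx, mul_one]
      rw [e1]
      ring)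
    exact ⟨γ, v, h1, h2, h3, by simpa using h4⟩

end V5helper47.ER
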