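import Pool.Agent.V5helper47.ER.Blk

/-! Project ER, job P2: the symmetry. -/

set_option autoImplicit false
open Finset

namespace V5helper47.ER
open V5helper19.ER

/-- the three double transpositions of four points -/
def KU : Equiv.Perm (Fin 4) := Equiv.swap 0 1 * Equiv.swap 2 3
def KV : Equiv.Perm (Fin 4) := Equiv.swap 0 2 * Equiv.swap 1 3

/-- `P` is `KU`, `KV` or `KU KV` and the sign `b` is the one of the colour `c` -/
def Row (P : Equiv.Perm (Fin 4)) (c : Bool × Bool) (b : Bool) : Prop :=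
  (P = KU ∧ b = c.1) ∨ (P = KV ∧ b = c.2) ∨ (P = KU * KV ∧ b = xor c.1 c.2)

def Rel (τ : Equiv.Perm (Fin 4)) (c c' : Bool × Bool) : Prop :=
  Row (Equiv.swap (τ 0) (τ 1) * Equiv.swap (τ 2) (τ 3)) c c'.1 ∧
  Row (Equiv.swap (τ 0) (τ 2) * Equiv.swap (τ 1) (τ 3)) c c'.2

instance (P : Equiv.Perm (Fin 4)) (c : Bool × Bool) (b : Bool) : Decidable (Row P c b) := by
  unfold Row; infer_instance
instance (τ : Equiv.Perm (Fin 4)) (c c' : Bool × Bool) : Decidable (Rel τ c c') := by
  unfold Rel; infer_instance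

theorem rel_exists (c c' : Bool × Bool) (h : c ≠ (false, false) ↔ c' ≠ (false, false)) :
    ∃ τ : Equiv.Perm (Fin 4), Rel τ c c' := by
  obtain ⟨a, b⟩ := c
  obtain ⟨a', b'⟩ := c'
  cases a <;> cases b <;> cases a' <;> cases b' <;>
    first
    | (exfalso; revert h; decide)
    | exact ⟨1, by decide⟩
    | exact ⟨Equiv.swap 1 2, by decide⟩
    | exact ⟨Equiv.swap 2 3, by decide⟩
    | exact ⟨Equiv.swap 1 3, by decide⟩
    | exact ⟨Equiv.swap 1 2 * Equiv.swap 2 3, by decide⟩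
    | exact ⟨Equiv.swap 2 3 * Equiv.swap 1 2, by decide⟩

variable {n m : ℕ}

/-- the block `i` -/
def bl (e : Fin m × Fin 4 ↪ Fin n) (i : Fin m) : Fin 4 ↪ Fin n :=
  ⟨fun r => e (i, r), fun r r' h => by simpa using e.injective h⟩

theorem uu_bl (e : Fin m × Fin 4 ↪ Fin n) (i : Fin m) : uu e i = Equiv.Perm.viaEmbeddingHom (bl e i) KU := by
  rw [KU, map_mul, via_swap, via_swap]; rfl

theorem vv_bl (e : Fin m × Fin 4 ↪ Fin n) (i : Fin m) : vv e i = Equiv.Perm.viaEmbeddingHom (bl e i) KV := by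
  rw [KV, map_mul, via_swap, via_swap]; rfl

theorem row_col {e : Fin m × Fin 4 ↪ Fin n} {γ : Fin m → Bool × Bool} {w : G n → ℝ} (h : IsCol e γ w)
    (i : Fin m) (P : Equiv.Perm (Fin 4)) (b : Bool) (hP : Row P (γ i) b) (x y : G n)
    (hy : (y : Equiv.Perm (Fin n)) = x * Equiv.Perm.viaEmbeddingHom (bl e i) P) : w y = sg b * w x := by
  rcases hP with ⟨rfl, rfl⟩ | ⟨rfl, rfl⟩ | ⟨rfl, rfl⟩
  · exact (h i x y).1 (by rw [hy, uu_bl])
  · exact (h i x y).2 (by rw [hy, vv_bl])
  · have h1 := (h i x (x * gu e i)).1 rfl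
    have h2 := (h i (x * gu e i) y).2 (by
      rw [hy, map_mul, ← uu_bl, ← vv_bl, ← mul_assoc]; rfl)
    rw [h2, h1]
    cases (γ i).1 <;> cases (γ i).2 <;> simp [sg]

/-- change of the labels of the blocks and in the blocks -/
def rel (e : Fin m × Fin 4 ↪ Fin n) (σ : Equiv.Perm (Fin m)) (τ : Fin m → Equiv.Perm (Fin 4)) :
    Fin m × Fin 4 ↪ Fin n :=
  ⟨fun p => e (σ p.1, τ p.1 p.2), by
    rintro ⟨i, r⟩ ⟨j, s⟩ h
    have h1 := e.injective h
    simp only [Prod.mk.injEq, EmbeddingLike.apply_eq_iff_eq] at h1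
    obtain ⟨rfl, h2⟩ := h1
    simpa using h2⟩

theorem rel_col {e : Fin m × Fin 4 ↪ Fin n} {γ γ' : Fin m → Bool × Bool} {w : G n → ℝ} (h : IsCol e γ w)
    (σ : Equiv.Perm (Fin m)) (τ : Fin m → Equiv.Perm (Fin 4)) (hτ : ∀ i, Rel (τ i) (γ (σ i)) (γ' i)) :
    IsCol (rel e σ τ) γ' w := by
  intro i x y
  constructor
  · intro hy
    refine row_col h (σ i) _ _ (hτ i).1 x y ?_
    rw [hy, map_mul, via_swap, via_swap]
    rfl
  · intro hy
    refine row_col h (σ i) _ _ (hτ i).2 x y ?_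
    rw [hy, map_mul, via_swap, via_swap]
    rfl

theorem exists_g (hn : 4 * m + 2 ≤ n) (e e' : Fin m × Fin 4 ↪ Fin n) :
    ∃ g : G n, ∀ p, (g : Equiv.Perm (Fin n)) (e p) = e' p := by
  let E : {x // x ∈ Set.range e} ≃ {x // x ∈ Set.range e'} :=
    (Equiv.ofInjective e e.injective).symm.trans (Equiv.ofInjective e' e'.injective)
  have hE : ∀ p, E.extendSubtype (e p) = e' p := by
    intro p
    rw [Equiv.extendSubtype_apply_of_mem E (e p) ⟨p, rfl⟩]
    have h1 : (Equiv.ofInjective e e.injective).symm ⟨e p, ⟨p, rfl⟩⟩ = p := by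
      rw [Equiv.symm_apply_eq]; rfl
    simp only [E, Equiv.trans_apply, h1]
    rfl
  rcases Int.units_eq_one_or (Equiv.Perm.sign E.extendSubtype) with h | h
  · exact ⟨⟨E.extendSubtype, Equiv.Perm.mem_alternatingGroup.2 h⟩, hE⟩
  · have hc : 1 < ((univ.map e')ᶜ).card := by
      rw [card_compl, card_map, card_univ, Fintype.card_prod, Fintype.card_fin, Fintype.card_fin,
        Fintype.card_fin]
      omega
    obtain ⟨a, ha, b, hb, hab⟩ := one_lt_card.1 hc
    have ha' : ∀ p, e' p ≠ a := by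
      rintro p rfl
      simp at ha
    have hb' : ∀ p, e' p ≠ b := by
      rintro p rfl
      simp at hb
    refine ⟨⟨Equiv.swap a b * E.extendSubtype, Equiv.Perm.mem_alternatingGroup.2 ?_⟩, fun p => ?_⟩
    · rw [map_mul, h, Equiv.Perm.sign_swap hab]; rfl
    · change Equiv.swap a b (E.extendSubtype (e p)) = e' p
      rw [hE, Equiv.swap_apply_of_ne_of_ne (ha' p) (hb' p)]

theorem conj2 {g : Equiv.Perm (Fin n)} (a b c d : Fin n) :
    (Equiv.swap (g a) (g b) * Equiv.swap (g c) (g d)) * g = g * (Equiv.swap a b * Equiv.swap c d) := by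
  rw [mul_assoc, ← Equiv.mul_swap_eq_swap_mul, ← mul_assoc, ← Equiv.mul_swap_eq_swap_mul, mul_assoc]

theorem t_P2 : S_P2 := by
  intro n m hn e e' W hW γ γ' hs hw
  obtain ⟨w, hw, hw0, hcol⟩ := hw
  -- the permutation of the blocks
  have hc : Fintype.card {i // γ' i ≠ (false, false)} = Fintype.card {i // γ i ≠ (false, false)} := by
    rw [Fintype.card_subtype, Fintype.card_subtype]
    exact hs.symm
  let E := Fintype.equivOfCardEq hc
  let σ : Equiv.Perm (Fin m) := E.extendSubtype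
  have hσ : ∀ i, γ (σ i) ≠ (false, false) ↔ γ' i ≠ (false, false) := by
    intro i
    constructor
    · intro h
      by_contra h'
      exact E.extendSubtype_not_mem i (fun h'' => h'' h') h
    · intro h
      exact E.extendSubtype_mem i h
  choose τ hτ using fun i => rel_exists (γ (σ i)) (γ' i) (hσ i)
  have h1 := rel_col hcol σ τ hτ
  obtain ⟨g, hg⟩ := exists_g hn (rel e σ τ) e'
  refine ⟨fun x => w (x * g), hW g w hw, ?_, ?_⟩
  · intro h0
    apply hw0
    ext x
    have := congrFun h0 (x * g⁻¹)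
    simpa using this
  · intro i x y
    constructor
    · intro hy
      refine (h1 i (x * g) (y * g)).1 ?_
      have h2 : uu e' i * (g : Equiv.Perm (Fin n)) = g * uu (rel e σ τ) i := by
        rw [uu, uu, ← hg, ← hg, ← hg, ← hg, conj2]
      rw [Subgroup.coe_mul, Subgroup.coe_mul, hy, mul_assoc, h2, mul_assoc]
    · intro hy
      refine (h1 i (x * g) (y * g)).2 ?_
      have h2 : vv e' i * (g : Equiv.Perm (Fin n)) = g * vv (rel e σ τ) i := by
        rw [vv, vv, ← hg, ← hg, ← hg, ← hg, conj2]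
      rw [Subgroup.coe_mul, Subgroup.coe_mul, hy, mul_assoc, h2, mul_assoc]

end V5helper47.ER
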