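import Pool.Agent.V5helper19.ER.Stm

/-! Project ER: the Klein four-groups of the blocks. -/

set_option autoImplicit false
open Finset

namespace V5helper47.ER
open V5helper19.ER

theorem sg_sq (b : Bool) : sg b * sg b = 1 := by cases b <;> simp [sg]

/-- The homomorphism of permutation groups of an embedding. -/
theorem via_swap {α β : Type} [DecidableEq α] [DecidableEq β] (ε : α ↪ β) (a b : α) :
    Equiv.Perm.viaEmbeddingHom ε (Equiv.swap a b) = Equiv.swap (ε a) (ε b) := by
  ext x
  rw [Equiv.Perm.viaEmbeddingHom_apply]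
  by_cases hx : x ∈ Set.range ε
  · obtain ⟨r, rfl⟩ := hx
    rw [Equiv.Perm.viaEmbedding_apply, ε.injective.swap_apply]
  · rw [Equiv.Perm.viaEmbedding_apply_of_notMem _ _ _ hx, Equiv.swap_apply_of_ne_of_ne]
    · rintro rfl; exact hx ⟨a, rfl⟩
    · rintro rfl; exact hx ⟨b, rfl⟩

variable {n m : ℕ}

/-- the permutations of the blocks -/
def U (i : Fin m) : Equiv.Perm (Fin m × Fin 4) := Equiv.swap (i, 0) (i, 1) * Equiv.swap (i, 2) (i, 3)
def V (i : Fin m) : Equiv.Perm (Fin m × Fin 4) := Equiv.swap (i, 0) (i, 2) * Equiv.swap (i, 1) (i, 3)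

theorem uu_eq (e : Fin m × Fin 4 ↪ Fin n) (i : Fin m) :
    uu e i = Equiv.Perm.viaEmbeddingHom e (U i) := by
  rw [U, map_mul, via_swap, via_swap, uu]

theorem vv_eq (e : Fin m × Fin 4 ↪ Fin n) (i : Fin m) :
    vv e i = Equiv.Perm.viaEmbeddingHom e (V i) := by
  rw [V, map_mul, via_swap, via_swap, vv]

def pu : Fin 4 → Fin 4 := ![1, 0, 3, 2]
def pv : Fin 4 → Fin 4 := ![2, 3, 0, 1]

theorem U_apply (i k : Fin m) (r : Fin 4) : U i (k, r) = if k = i then (k, pu r) else (k, r) := by
  by_cases h : k = i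
  · subst h
    rw [if_pos rfl]
    fin_cases r <;> simp [U, pu, Equiv.swap_apply_def]
  · rw [if_neg h]
    simp [U, Equiv.swap_apply_def, h]

theorem V_apply (i k : Fin m) (r : Fin 4) : V i (k, r) = if k = i then (k, pv r) else (k, r) := by
  by_cases h : k = i
  · subst h
    rw [if_pos rfl]
    fin_cases r <;> simp [V, pv, Equiv.swap_apply_def]
  · rw [if_neg h]
    simp [V, Equiv.swap_apply_def, h]

theorem puu : ∀ r, pu (pu r) = r := by decide
theorem pvv : ∀ r, pv (pv r) = r := by decide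
theorem puv : ∀ r, pu (pv r) = pv (pu r) := by decide

theorem UU (i : Fin m) : U i * U i = 1 := by
  ext1 ⟨k, r⟩
  by_cases h : k = i <;> simp [Equiv.Perm.mul_apply, U_apply, h, puu]

theorem VV (i : Fin m) : V i * V i = 1 := by
  ext1 ⟨k, r⟩
  by_cases h : k = i <;> simp [Equiv.Perm.mul_apply, V_apply, h, pvv]

theorem cUU (i j : Fin m) : U i * U j = U j * U i := by
  ext1 ⟨k, r⟩
  by_cases h : k = i
  · by_cases h' : k = j
    · simp only [Equiv.Perm.mul_apply, U_apply, if_pos h, if_pos h']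
    · simp only [Equiv.Perm.mul_apply, U_apply, if_pos h, if_neg h']
  · by_cases h' : k = j
    · simp only [Equiv.Perm.mul_apply, U_apply, if_neg h, if_pos h']
    · simp only [Equiv.Perm.mul_apply, U_apply, if_neg h, if_neg h']

theorem cVV (i j : Fin m) : V i * V j = V j * V i := by
  ext1 ⟨k, r⟩
  by_cases h : k = i
  · by_cases h' : k = j
    · simp only [Equiv.Perm.mul_apply, V_apply, if_pos h, if_pos h']
    · simp only [Equiv.Perm.mul_apply, V_apply, if_pos h, if_neg h']
  · by_cases h' : k = j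
    · simp only [Equiv.Perm.mul_apply, V_apply, if_neg h, if_pos h']
    · simp only [Equiv.Perm.mul_apply, V_apply, if_neg h, if_neg h']

theorem cUV (i j : Fin m) : U i * V j = V j * U i := by
  ext1 ⟨k, r⟩
  by_cases h : k = i
  · by_cases h' : k = j
    · simp only [Equiv.Perm.mul_apply, U_apply, V_apply, if_pos h, if_pos h', puv]
    · simp only [Equiv.Perm.mul_apply, U_apply, V_apply, if_pos h, if_neg h', puv]
  · by_cases h' : k = j
    · simp only [Equiv.Perm.mul_apply, U_apply, V_apply, if_neg h, if_pos h', puv]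
    · simp only [Equiv.Perm.mul_apply, U_apply, V_apply, if_neg h, if_neg h', puv]

theorem sign_uu (e : Fin m × Fin 4 ↪ Fin n) (i : Fin m) : Equiv.Perm.sign (uu e i) = 1 := by
  rw [uu, map_mul, Equiv.Perm.sign_swap (by simp), Equiv.Perm.sign_swap (by simp)]
  rfl

theorem sign_vv (e : Fin m × Fin 4 ↪ Fin n) (i : Fin m) : Equiv.Perm.sign (vv e i) = 1 := by
  rw [vv, map_mul, Equiv.Perm.sign_swap (by simp), Equiv.Perm.sign_swap (by simp)]
  rfl

/-- the double transpositions as elements of the group -/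
def gu (e : Fin m × Fin 4 ↪ Fin n) (i : Fin m) : G n := ⟨uu e i, Equiv.Perm.mem_alternatingGroup.2 (sign_uu e i)⟩
def gv (e : Fin m × Fin 4 ↪ Fin n) (i : Fin m) : G n := ⟨vv e i, Equiv.Perm.mem_alternatingGroup.2 (sign_vv e i)⟩

theorem isCol_iff (e : Fin m × Fin 4 ↪ Fin n) (γ : Fin m → Bool × Bool) (w : G n → ℝ) :
    IsCol e γ w ↔ ∀ i x, w (x * gu e i) = sg (γ i).1 * w x ∧ w (x * gv e i) = sg (γ i).2 * w x := by
  constructor
  · intro h i x
    exact ⟨(h i x (x * gu e i)).1 rfl, (h i x (x * gv e i)).2 rfl⟩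
  · intro h i x y
    constructor
    · intro hy
      have : y = x * gu e i := Subtype.ext hy
      rw [this]; exact (h i x).1
    · intro hy
      have : y = x * gv e i := Subtype.ext hy
      rw [this]; exact (h i x).2

/-- all the elements -/
def gg (e : Fin m × Fin 4 ↪ Fin n) (κ : Fin m × Bool) : G n := if κ.2 then gv e κ.1 else gu e κ.1

theorem gg_sq (e : Fin m × Fin 4 ↪ Fin n) (κ : Fin m × Bool) : gg e κ * gg e κ = 1 := by
  obtain ⟨i, b⟩ := κ
  apply Subtype.ext
  cases b
  · change uu e i * uu e i = 1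
    rw [uu_eq, ← map_mul, UU, map_one]
  · change vv e i * vv e i = 1
    rw [vv_eq, ← map_mul, VV, map_one]

theorem gg_comm (e : Fin m × Fin 4 ↪ Fin n) (κ κ' : Fin m × Bool) :
    gg e κ * gg e κ' = gg e κ' * gg e κ := by
  obtain ⟨i, b⟩ := κ
  obtain ⟨j, c⟩ := κ'
  apply Subtype.ext
  cases b <;> cases c
  · change uu e i * uu e j = uu e j * uu e i
    rw [uu_eq, uu_eq, ← map_mul, cUU, map_mul]
  · change uu e i * vv e j = vv e j * uu e i
    rw [uu_eq, vv_eq, ← map_mul, cUV, map_mul]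
  · change vv e i * uu e j = uu e j * vv e i
    rw [uu_eq, vv_eq, ← map_mul, ← cUV, map_mul]
  · change vv e i * vv e j = vv e j * vv e i
    rw [vv_eq, vv_eq, ← map_mul, cVV, map_mul]

end V5helper47.ER
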